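import Pool.Agent.Helper88_SA.StmtP

/-! SA module LYAP. -/

namespace SA.H53

/-- tails of the weights -/
def wL : List ℕ := [19949, 7649, 861, 386, 225, 224, 224, 224, 144, 92, 62, 39, 22, 12, 8, 8, 8, 7, 6,
  5, 4, 3, 2, 1, 0, 0]

noncomputable def ww (q : ℕ) : ℝ := (wL.getD q 0 : ℝ) / 19949

theorem ww_nonneg (q : ℕ) : 0 ≤ ww q := by unfold ww; positivity

theorem ww_step (q : ℕ) (h1 : 1 ≤ q) (h2 : q ≤ 25) :
    ww q - ww (q + 1) = (chiL.getD q 0 : ℝ) / 10 ^ 4 / 1.9949 := by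
  unfold ww
  have h : wL.getD q 0 = wL.getD (q + 1) 0 + chiL.getD q 0 := by
    interval_cases q <;> rfl
  rw [h]
  push_cast
  ring

theorem ww_anti (q : ℕ) (h1 : 1 ≤ q) (h2 : q ≤ 25) : ww (q + 1) ≤ ww q := by
  have h := ww_step q h1 h2
  have h3 : (0 : ℝ) ≤ (chiL.getD q 0 : ℝ) / 10 ^ 4 / 1.9949 := by positivity
  linarith

theorem ww_26 : ww 26 = 0 := by
  unfold ww
  simp [wL]

theorem sum_Icc25 (f : ℕ → ℝ) :
    ∑ q ∈ Finset.Icc (1 : ℕ) 25, f q = ∑ i ∈ Finset.range 25, f (i + 1) := by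
  rw [Finset.range_eq_Ico, Finset.sum_Ico_add' f 0 25 1]
  rfl

/-- the weighted sum at the next index -/
theorem next_sum (K : ℕ → ℝ) (j : ℕ) :
    ∑ q ∈ Finset.Icc (1 : ℕ) 25, (if q ≤ j + 1 then ww q * K (j + 1 - q) else 0)
      = ww 1 * K j + ∑ q ∈ Finset.Icc (1 : ℕ) 25, (if q ≤ j then ww (q + 1) * K (j - q) else 0) := by
  rw [sum_Icc25, sum_Icc25]
  have h1 := Finset.sum_range_succ'
    (fun i : ℕ => if i + 1 ≤ j + 1 then ww (i + 1) * K (j + 1 - (i + 1)) else 0) 24
  have h2 := Finset.sum_range_succ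
    (fun i : ℕ => if i + 1 ≤ j then ww (i + 1 + 1) * K (j - (i + 1)) else 0) 24
  have h3 : ∑ i ∈ Finset.range 24,
      (if i + 1 + 1 ≤ j + 1 then ww (i + 1 + 1) * K (j + 1 - (i + 1 + 1)) else 0)
      = ∑ i ∈ Finset.range 24, (if i + 1 ≤ j then ww (i + 1 + 1) * K (j - (i + 1)) else 0) := by
    refine Finset.sum_congr rfl fun i _ => ?_
    have h4 : j + 1 - (i + 1 + 1) = j - (i + 1) := by omega
    rw [h4]
    by_cases h5 : i + 1 ≤ j
    · rw [if_pos h5, if_pos (by omega)]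
    · rw [if_neg h5, if_neg (by omega)]
  rw [h3] at h1
  have h6 : (if 24 + 1 ≤ j then ww (24 + 1 + 1) * K (j - (24 + 1)) else 0) = 0 := by
    have : ww (24 + 1 + 1) = 0 := ww_26
    rw [this]
    simp
  rw [h1, h2, h6, if_pos (by omega)]
  simp only [zero_add, Nat.add_sub_cancel]
  ring

theorem abel (w c : ℕ → ℝ) (j0 : ℕ) (hw : ∀ q, 0 ≤ w q)
    (ha : ∀ q, 2 ≤ q → q ≤ 25 → w (q + 1) ≤ w q)
    (hc : ∀ q, 1 ≤ q → q ≤ j0 → 0 ≤ c q) (hj : 1 ≤ j0) : ∀ m, 2 ≤ m → m ≤ 25 →
    ∑ q ∈ Finset.Icc 2 m, (if q ≤ j0 then w q * (c (q - 1) - c q) else 0)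
      ≤ w 2 * c 1 - (if m ≤ j0 then w m * c m else 0) := by
  intro m hm
  induction m, hm using Nat.le_induction with
  | base =>
    intro _
    rw [Finset.Icc_self, Finset.sum_singleton]
    by_cases h : 2 ≤ j0
    · rw [if_pos h, if_pos h]
      simp only [Nat.reduceSub]
      linarith
    · rw [if_neg h, if_neg h]
      have := mul_nonneg (hw 2) (hc 1 le_rfl hj)
      linarith
  | succ m hm ih =>
    intro h25
    have ih' := ih (by omega)
    rw [Finset.sum_Icc_succ_top (by omega)]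
    by_cases h : m + 1 ≤ j0
    · rw [if_pos h, if_pos h]
      rw [if_pos (by omega : m ≤ j0)] at ih'
      rw [Nat.add_sub_cancel]
      have h1 := ha m hm (by omega)
      have h2 := mul_le_mul_of_nonneg_right h1 (hc m (by omega) (by omega))
      linarith
    · rw [if_neg h, if_neg h]
      have h3 : 0 ≤ (if m ≤ j0 then w m * c m else 0) := by
        by_cases h4 : m ≤ j0
        · rw [if_pos h4]; exact mul_nonneg (hw m) (hc m (by omega) h4)
        · rw [if_neg h4]
      linarith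

theorem sum_ww : ∑ q ∈ Finset.Icc (2 : ℕ) 25, ww q ≤ 0.1287 := by
  have h : ∑ q ∈ Finset.Icc (2 : ℕ) 25, ww q = ((∑ q ∈ Finset.Icc (2 : ℕ) 25, wL.getD q 0 : ℕ) : ℝ) / 19949 := by
    unfold ww
    rw [Nat.cast_sum, Finset.sum_div]
  have h2 : (∑ q ∈ Finset.Icc (2 : ℕ) 25, wL.getD q 0 : ℕ) = 2567 := by decide
  rw [h, h2]
  norm_num

/-- LYAP -/
theorem lyap : LyapStmt := by
  intro J a K hK hstep h0 hle hlow
  by_contra hcon
  push Not at hcon
  -- the last index below 1.056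
  have hJ : 0 < J := by
    rcases Nat.eq_zero_or_pos J with h | h
    · subst h; linarith
    · exact h
  have hex : ∃ i, i < J ∧ a i < 1.056 ∧ ∀ j, i < j → j < J → 1.056 ≤ a j := by
    have hP : ∃ i, i < J ∧ a i < 1.056 := ⟨0, hJ, h0⟩
    obtain ⟨i, ⟨hi1, hi2⟩, hmax⟩ := (Finset.exists_max_image
      ((Finset.range J).filter (fun i => a i < 1.056)) id
      ⟨0, Finset.mem_filter.2 ⟨Finset.mem_range.2 hJ, h0⟩⟩) |>.imp fun i h => by
        rw [Finset.mem_filter, Finset.mem_range] at h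
        exact h
    refine ⟨i, hi1, hi2, fun j hij hjJ => ?_⟩
    by_contra h
    push Not at h
    have := hmax j (Finset.mem_filter.2 ⟨Finset.mem_range.2 hjJ, h⟩)
    simp only [id] at this
    omega
  obtain ⟨i, hiJ, hai, hafter⟩ := hex
  let U : ℕ → ℝ := fun j => a j + ∑ q ∈ Finset.Icc (1 : ℕ) 25,
    (if q ≤ j then ww q * K (j - q) else 0)
  have hUstep : ∀ j, 1 ≤ j → j < J → 1.056 ≤ a j → U (j + 1) ≤ U j := by
    intro j h1 hj ha
    have e1 := next_sum K j
    have e2 : ∑ q ∈ Finset.Icc (1 : ℕ) 25, (if q ≤ j then ww q * K (j - q) else 0)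
        - ∑ q ∈ Finset.Icc (1 : ℕ) 25, (if q ≤ j then ww (q + 1) * K (j - q) else 0)
        = (∑ q ∈ Finset.Icc (1 : ℕ) 25,
            if q ≤ j then (chiL.getD q 0 : ℝ) / 10 ^ 4 * K (j - q) else 0) / 1.9949 := by
      rw [← Finset.sum_sub_distrib, Finset.sum_div]
      refine Finset.sum_congr rfl fun q hq => ?_
      rw [Finset.mem_Icc] at hq
      by_cases h : q ≤ j
      · rw [if_pos h, if_pos h, if_pos h, ← sub_mul, ww_step q hq.1 hq.2]
        ring
      · rw [if_neg h, if_neg h, if_neg h]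
        ring
    have e3 := hlow j h1 hj ha
    have e4 := hstep j hj
    have e5 : ww 1 = 7649 / 19949 := by
      unfold ww
      norm_num [wL]
    have e6 : (0 : ℝ) ≤ K j := hK j hj
    show a (j + 1) + _ ≤ a j + _
    rw [e1, e5]
    set A := ∑ q ∈ Finset.Icc (1 : ℕ) 25, (if q ≤ j then ww q * K (j - q) else 0)
    set B := ∑ q ∈ Finset.Icc (1 : ℕ) 25, (if q ≤ j then ww (q + 1) * K (j - q) else 0)
    set S := ∑ q ∈ Finset.Icc (1 : ℕ) 25,
            (if q ≤ j then (chiL.getD q 0 : ℝ) / 10 ^ 4 * K (j - q) else 0)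
    have e7 : S = 1.9949 * (A - B) := by
      rw [e2]
      ring
    rw [e7] at e3
    linarith
  have hUJ : U J ≤ U (i + 1) := by
    have h1 : ∀ d, i + 1 + d ≤ J → U (i + 1 + d) ≤ U (i + 1) := by
      intro d
      induction d with
      | zero => intro _; exact le_rfl
      | succ d ih =>
        intro hd
        exact (hUstep (i + 1 + d) (by omega) (by omega) (hafter _ (by omega) (by omega))).trans
          (ih (by omega))
    have h2 := h1 (J - (i + 1)) (by omega)
    rwa [Nat.add_sub_cancel' (by omega : i + 1 ≤ J)] at h2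
  have haU : a J ≤ U J := by
    show a J ≤ a J + _
    have : 0 ≤ ∑ q ∈ Finset.Icc (1 : ℕ) 25, (if q ≤ J then ww q * K (J - q) else 0) := by
      refine Finset.sum_nonneg fun q hq => ?_
      rw [Finset.mem_Icc] at hq
      by_cases h : q ≤ J
      · rw [if_pos h]
        exact mul_nonneg (ww_nonneg q) (hK _ (by omega))
      · rw [if_neg h]
    linarith
  -- the bound of U (i + 1)
  have hU : U (i + 1) ≤ 1.0567 := by
    have e1 : U (i + 1) = a (i + 1) + (ww 1 * K i +
        ∑ q ∈ Finset.Icc (2 : ℕ) 25, (if q ≤ i + 1 then ww q * K (i + 1 - q) else 0)) := by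
      show a (i + 1) + _ = _
      have h1 : Finset.Icc (1 : ℕ) 25 = insert 1 (Finset.Icc (2 : ℕ) 25) := by decide
      rw [h1, Finset.sum_insert (by simp)]
      simp
    let c : ℕ → ℝ := fun q => 1.0573 - a (i + 1 - q)
    have hc : ∀ q, 1 ≤ q → q ≤ i + 1 → 0 ≤ c q := by
      intro q h1 h2
      have := hle (i + 1 - q) (by omega)
      show 0 ≤ 1.0573 - a (i + 1 - q)
      linarith
    have e2 := abel ww c (i + 1) ww_nonneg (fun q h1 h2 => ww_anti q (by omega) h2) hc (by omega)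
      25 (by norm_num) le_rfl
    have e3 : ∑ q ∈ Finset.Icc (2 : ℕ) 25, (if q ≤ i + 1 then ww q * K (i + 1 - q) else 0)
        ≤ ∑ q ∈ Finset.Icc 2 25, (if q ≤ i + 1 then ww q * (c (q - 1) - c q) else 0)
          + ∑ q ∈ Finset.Icc (2 : ℕ) 25, ww q * (5.14 / 10 ^ 4) := by
      rw [← Finset.sum_add_distrib]
      refine Finset.sum_le_sum fun q hq => ?_
      rw [Finset.mem_Icc] at hq
      by_cases h : q ≤ i + 1
      · rw [if_pos h, if_pos h, ← mul_add]
        apply mul_le_mul_of_nonneg_left _ (ww_nonneg q)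
        have h1 := hstep (i + 1 - q) (by omega)
        have h2 : i + 1 - q + 1 = i + 1 - (q - 1) := by omega
        rw [h2] at h1
        show K (i + 1 - q) ≤ (1.0573 - a (i + 1 - (q - 1))) - (1.0573 - a (i + 1 - q)) + _
        linarith
      · rw [if_neg h, if_neg h, zero_add]
        exact mul_nonneg (ww_nonneg q) (by norm_num)
    rw [← Finset.sum_mul] at e3
    have e4 : 0 ≤ (if 25 ≤ i + 1 then ww 25 * c 25 else 0) := by
      by_cases h : 25 ≤ i + 1
      · rw [if_pos h]; exact mul_nonneg (ww_nonneg _) (hc _ (by norm_num) h)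
      · rw [if_neg h]
    have e5 : c 1 = 1.0573 - a i := rfl
    have e6 : ww 1 = 7649 / 19949 := by unfold ww; norm_num [wL]
    have e7 : ww 2 = 861 / 19949 := by unfold ww; norm_num [wL]
    have e8 := hstep i hiJ
    have e9 := hK i hiJ
    have e10 := sum_ww
    rw [e1, e6]
    rw [e7, e5] at e2
    linarith
  linarith

end SA.H53
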