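import Pool.Agent.Helper88_SA.StmtP

/-! SA modules MAIN and INFK. -/

namespace SA.H53

open Filter Topology

theorem valid_of_HH {T x0 z : ℝ} {th : ℂ} (hc : Ctx T x0 z th) {k : ℕ} (h : HH T x0 z th k) :
    ∀ m, m < 1525 + k → Valid T m := by
  intro m hm
  by_cases h1 : m < 1525
  · exact hc.sim.valid m h1
  · have h2 := (h (m - 1525) (by omega)).val
    rwa [Nat.add_sub_cancel' (by omega : 1525 ≤ m)] at h2

theorem kap_le_of_PP {T x0 z : ℝ} {th : ℂ} (b : NumA) {k : ℕ} (h : PP T x0 z th k) :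
    kap T (1525 + k) ≤ 10 :=
  (h.kle.trans (b.pass.dmax _)).trans (by norm_num)

theorem Dn_le_of_PP {T x0 z : ℝ} {th : ℂ} (b : NumA) {k : ℕ} (h : PP T x0 z th k) :
    Dn T (1525 + k) ≤ 2 * Cn T x0 (1525 + k) := by
  have h1 := h.Dle
  have h2 : ((Dt (cell T x0 th k) : ℕ) : ℝ) ≤ 2000000 := by
    exact_mod_cast b.pass.Dmax (cell T x0 th k)
  have h3 : Cn T x0 (1525 + k) * ((Dt (cell T x0 th k) : ℝ) / 10 ^ 6) ≤
      Cn T x0 (1525 + k) * 2 := by
    apply mul_le_mul_of_nonneg_left _ h.Cpos.le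
    rw [div_le_iff₀ (by norm_num)]
    linarith
  linarith

/-- MAIN -/
theorem main (b : NumA) (hQ : QuietStmt) (hHi : AhiStmt) (hLo : AloStmt) (hS : StepCStmt)
    (hC : CloseStmt) (hW : WupStmt) : MainStmt := by
  intro T x0 z th hc k hz i
  induction i using Nat.strong_induction_on with
  | _ i ih =>
  intro hik
  by_cases h1 : i ≤ 6475
  · exact (hQ T x0 z th hc i h1 (fun j hj => hz j (hj.trans hik)) i le_rfl).1
  · have hH : HH T x0 z th i := fun j hj => ih j hj (by omega)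
    have hV := valid_of_HH hc hH
    have hP := ih (i - 1) (by omega) (by omega)
    have h2 : 1525 + i = (1525 + (i - 1)) + 1 := by omega
    have hCpos : 0 < Cn T x0 (1525 + i) := by
      rw [h2]
      exact (hS T x0 z th hc (1525 + (i - 1)) (fun m hm => hV m (by omega)) hP.Cpos
        (kap_le_of_PP b hP) (Dn_le_of_PP b hP)).2.2.1
    have hz' := hz i hik
    have hPre : Pre T x0 z th i := ⟨hCpos, hLo T x0 z th hc i hH, hHi T x0 z th hc i hH,
      hz'.1, hz'.2⟩
    obtain ⟨c1, c2, c3⟩ := hC T x0 z th hc i (by omega) hH hPre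
    exact ⟨hCpos, hPre.Alo, hPre.Ahi, hz'.1, hz'.2, c1, c2, c3, hW T x0 z th hc i hH hPre⟩

theorem Dn_eq_zero_of_kap {T : ℝ} {n : ℕ} (h : kap T n = 0) : Dn T n = 0 := by
  unfold kap at h
  rw [Finset.card_eq_zero, Finset.filter_eq_empty_iff] at h
  unfold Dn
  refine Finset.sum_eq_zero fun j hj => ?_
  have h1 := h hj
  rw [not_lt] at h1
  exact max_eq_right (by linarith)

/-- INFK -/
theorem infk (hS : StepCStmt) : InfKStmt := by
  intro T x0 z th hc hP n
  by_contra hcon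
  push Not at hcon
  have hk : ∀ n', n ≤ n' → kap T n' = 0 := fun n' h => by
    have := hcon n' h
    omega
  have hV : ∀ m, Valid T m := fun m =>
    valid_of_HH hc (k := m + 1) (fun i _ => hP i) m (by omega)
  have hr := hc.nr.rho_lo
  have hstep : ∀ k, n ≤ 1525 + k → ‖xin T x0 th (1525 + (k + 1))‖
      = x0 / ‖th‖ * ‖xin T x0 th (1525 + k)‖ := by
    intro k hkn
    have hD := Dn_eq_zero_of_kap (hk _ hkn)
    have h1 := hS T x0 z th hc (1525 + k) (fun m _ => hV m) (hP k).Cpos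
      (by rw [hk _ hkn]; norm_num) (by rw [hD]; have := (hP k).Cpos; linarith)
    exact (h1.2.2.2.2.2 hD).2.2
  have hgrow : ∀ m : ℕ, (1.0000099 : ℝ) ^ m * 0.9 ≤ ‖xin T x0 th (1525 + (n + m))‖ := by
    intro m
    induction m with
    | zero => simpa using (hP n).Alo
    | succ m ih =>
      have h1 := hstep (n + m) (by omega)
      have h2 : 1525 + (n + (m + 1)) = 1525 + (n + m + 1) := by omega
      rw [h2, h1, pow_succ]
      have h3 : (0 : ℝ) ≤ ‖xin T x0 th (1525 + (n + m))‖ := norm_nonneg _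
      have h4 : (0 : ℝ) ≤ (1.0000099 : ℝ) ^ m * 0.9 := by positivity
      calc (1.0000099 : ℝ) ^ m * 1.0000099 * 0.9 = 1.0000099 * ((1.0000099 : ℝ) ^ m * 0.9) := by ring
        _ ≤ 1.0000099 * ‖xin T x0 th (1525 + (n + m))‖ :=
            mul_le_mul_of_nonneg_left ih (by norm_num)
        _ ≤ x0 / ‖th‖ * ‖xin T x0 th (1525 + (n + m))‖ := mul_le_mul_of_nonneg_right hr h3
  obtain ⟨m, hm⟩ := pow_unbounded_of_one_lt (2 : ℝ) (by norm_num : (1 : ℝ) < 1.0000099)
  have h1 := hgrow m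
  have h2 := (hP (n + m)).Ahi
  nlinarith

end SA.H53
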