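import Pool.Agent.Helper88_SA.StmtA

/-! SA modules RSTEP and WLIN. -/

namespace SA.H53

open Filter Topology

theorem sum_Icc_eq (f : ℕ → ℝ) :
    ∑ d ∈ Finset.Icc (1 : ℕ) 55, f d = ∑ i ∈ Finset.range 55, f (i + 1) := by
  rw [Finset.range_eq_Ico, Finset.sum_Ico_add' f 0 55 1]
  rfl

/-- shift of a sum -/
theorem shift (F g : ℕ → ℝ) (M : ℝ) :
    ∑ d ∈ Finset.Icc (1 : ℕ) 55, F d * (if d = 1 then M else g (d - 1))
      = F 1 * M + ∑ d ∈ Finset.Icc (1 : ℕ) 55, (if d = 55 then 0 else F (d + 1)) * g d := by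
  rw [sum_Icc_eq, sum_Icc_eq]
  have h1 := Finset.sum_range_succ'
    (fun i : ℕ => F (i + 1) * (if i + 1 = 1 then M else g (i + 1 - 1))) 54
  have h2 := Finset.sum_range_succ
    (fun i : ℕ => (if i + 1 = 55 then 0 else F (i + 1 + 1)) * g (i + 1)) 54
  have h3 : ∑ i ∈ Finset.range 54, F (i + 1 + 1) * (if i + 1 + 1 = 1 then M else g (i + 1 + 1 - 1))
      = ∑ i ∈ Finset.range 54, (if i + 1 = 55 then 0 else F (i + 1 + 1)) * g (i + 1) := by
    refine Finset.sum_congr rfl fun i hi => ?_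
    have h4 : i < 54 := Finset.mem_range.1 hi
    rw [if_neg (by omega), if_neg (by omega)]
    rfl
  rw [h3] at h1
  rw [h1, h2, if_pos rfl, if_pos rfl]
  ring

/-- what remains of a class after the search -/
theorem gd_eq (hS : SortStmt) (T : ℝ) (n d : ℕ) (h1 : 1 ≤ d) (h2 : d ≤ 55) :
    Nd T n d - pd T n d = min (Bn T n) ((gr T n).Q (d - 1)) - min (Bn T n) ((gr T n).Q d) := by
  have hs := (hS T n).1 (d - 1) d (by omega) (by omega)
  unfold Nd pd Bn
  rcases le_total (gr T n).B ((gr T n).Q d) with h | h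
  · have h3 : (gr T n).B ≤ (gr T n).Q (d - 1) := h.trans hs
    rw [min_eq_right h3, max_eq_left h, min_eq_left h3, min_eq_left h]
    ring
  · rw [min_eq_right h]
    have h3 : (gr T n).Q d ≤ min ((gr T n).Q (d - 1)) (gr T n).B := le_min hs h
    rw [max_eq_right h3, min_comm]
    ring

theorem sum_gd (hS : SortStmt) (T : ℝ) (n : ℕ) (hV : Valid T n) :
    ∑ d ∈ Finset.Icc (1 : ℕ) 55, (Nd T n d - pd T n d)
      = Bn T n - (gr T n).Q 55 - max (Bn T n - (gr T n).Q 0) 0 := by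
  have h1 : ∑ d ∈ Finset.Icc (1 : ℕ) 55, (Nd T n d - pd T n d)
      = ∑ d ∈ Finset.Icc (1 : ℕ) 55,
        (min (Bn T n) ((gr T n).Q (d - 1)) - min (Bn T n) ((gr T n).Q d)) := by
    refine Finset.sum_congr rfl fun d hd => ?_
    rw [Finset.mem_Icc] at hd
    exact gd_eq hS T n d hd.1 hd.2
  rw [h1, sum_Icc_eq]
  have h2 := Finset.sum_range_sub' (fun j => min (Bn T n) ((gr T n).Q j)) 55
  simp only [Nat.add_sub_cancel]
  rw [h2]
  have hV' : (gr T n).Q 55 ≤ Bn T n := hV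
  rw [min_eq_right hV']
  rcases le_total (Bn T n) ((gr T n).Q 0) with h | h
  · rw [min_eq_left h, max_eq_right (by linarith)]
    ring
  · rw [min_eq_right h, max_eq_left (by linarith)]
    ring

theorem sum_w_gd (hS : SortStmt) (hB : BarStmt) (T : ℝ) (n : ℕ) (hV : Valid T n) :
    ∑ d ∈ Finset.Icc (1 : ℕ) 55, (56 - (d : ℝ)) * (Nd T n d - pd T n d)
      = (gr T n).E - 56 * max (Bn T n - (gr T n).Q 0) 0 := by
  have h1 : ∑ d ∈ Finset.Icc (1 : ℕ) 55, (56 - (d : ℝ)) * (Nd T n d - pd T n d)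
      = ∑ d ∈ Finset.Icc (1 : ℕ) 55, (56 - (d : ℝ)) *
        (min (Bn T n) ((gr T n).Q (d - 1)) - min (Bn T n) ((gr T n).Q d)) := by
    refine Finset.sum_congr rfl fun d hd => ?_
    rw [Finset.mem_Icc] at hd
    rw [gd_eq hS T n d hd.1 hd.2]
  have h2 : ∀ (m : ℕ → ℝ) (k : ℕ), ∑ i ∈ Finset.range k, (56 - ((i + 1 : ℕ) : ℝ)) * (m i - m (i + 1))
      = 56 * m 0 - (56 - (k : ℝ)) * m k - ∑ j ∈ Finset.range (k + 1), m j + m k - (m k - m k) := by
    intro m k
    induction k with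
    | zero => simp
    | succ k ih =>
      rw [Finset.sum_range_succ, ih, Finset.sum_range_succ m (k + 1)]
      push_cast
      ring
  have h3 := (hB T n hV).1
  have h4 : ∑ j ∈ Finset.range 56, max (Bn T n - (gr T n).Q j) 0
      = 56 * Bn T n - ∑ j ∈ Finset.range 56, min (Bn T n) ((gr T n).Q j) := by
    have h5 : ∀ j, max (Bn T n - (gr T n).Q j) 0 = Bn T n - min (Bn T n) ((gr T n).Q j) := by
      intro j
      rcases le_total (Bn T n) ((gr T n).Q j) with h | h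
      · rw [min_eq_left h, max_eq_right (by linarith)]; ring
      · rw [min_eq_right h, max_eq_left (by linarith)]
    simp only [h5, Finset.sum_sub_distrib, Finset.sum_const, Finset.card_range, nsmul_eq_mul]
    norm_num
  rw [h1, sum_Icc_eq]
  simp only [Nat.add_sub_cancel]
  rw [h2 (fun j => min (Bn T n) ((gr T n).Q j)) 55]
  rw [h4] at h3
  have h6 : 56 * max (Bn T n - (gr T n).Q 0) 0
      = 56 * Bn T n - 56 * min (Bn T n) ((gr T n).Q 0) := by
    rcases le_total (Bn T n) ((gr T n).Q 0) with h | h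
    · rw [min_eq_left h, max_eq_right (by linarith)]; ring
    · rw [min_eq_right h, max_eq_left (by linarith)]; ring
  rw [h6]
  push_cast
  norm_num
  linarith

/-- RSTEP -/
theorem rstep (hS : SortStmt) (hB : BarStmt) (hC : CstepStmt) (hP : PdStmt) : RestStepStmt := by
  intro T b n hT hV
  have hVn := hV n le_rfl
  obtain ⟨c1, c2, _⟩ := hC T n hVn
  obtain ⟨_, _, _, _, p5⟩ := hP T n hV
  have s1 := sum_gd hS T n hVn
  have s2 := sum_w_gd hS hB T n hVn
  set M := max (Bn T n - (gr T n).Q 0) 0 with hM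
  set c := b.R - b.E / T with hc
  have e1 : ∑ d ∈ Finset.Icc (1 : ℕ) 55, b.r (56 - d) * Nd T (n + 1) d
      = ∑ d ∈ Finset.Icc (1 : ℕ) 55, b.r (56 - d) *
          (if d = 1 then M else (Nd T n (d - 1) - pd T n (d - 1)))
        + ∑ d ∈ Finset.Icc (1 : ℕ) 55, b.r (56 - d) * pd T n d := by
    rw [← Finset.sum_add_distrib]
    refine Finset.sum_congr rfl fun d hd => ?_
    rw [Finset.mem_Icc] at hd
    rw [p5 d hd.1 hd.2]
    ring
  have e2 := shift (fun d => b.r (56 - d)) (fun d => Nd T n d - pd T n d) M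
  have e3 : ∑ d ∈ Finset.Icc (1 : ℕ) 55, (badj T b).r (56 - d) * (Nd T n d - pd T n d)
      = ∑ d ∈ Finset.Icc (1 : ℕ) 55, (if d = 55 then 0 else b.r (56 - (d + 1))) *
          (Nd T n d - pd T n d)
        - c * ∑ d ∈ Finset.Icc (1 : ℕ) 55, (Nd T n d - pd T n d)
        - (b.r 55 - c) / 56 * ∑ d ∈ Finset.Icc (1 : ℕ) 55, (56 - (d : ℝ)) *
          (Nd T n d - pd T n d) := by
    rw [Finset.mul_sum, Finset.mul_sum, ← Finset.sum_sub_distrib, ← Finset.sum_sub_distrib]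
    refine Finset.sum_congr rfl fun d hd => ?_
    rw [Finset.mem_Icc] at hd
    have h1 : (badj T b).r (56 - d) = (if d = 55 then 0 else b.r (56 - (d + 1))) - c
        - (b.r 55 - c) * (56 - (d : ℝ)) / 56 := by
      have h2 : 56 - d ≠ 0 := by omega
      have h3 : ((56 - d : ℕ) : ℝ) = 56 - (d : ℝ) := by
        rw [Nat.cast_sub (by omega)]
        norm_num
      change (if 56 - d = 0 then (0 : ℝ) else (if 56 - d = 1 then 0 else b.r (56 - d - 1))
        - (b.R - b.E / T) - (b.r 55 - (b.R - b.E / T)) * ((56 - d : ℕ) : ℝ) / 56) = _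
      rw [if_neg h2, h3, hc]
      congr 2
      by_cases h4 : d = 55
      · rw [if_pos (by omega), if_pos h4]
      · rw [if_neg (by omega), if_neg h4]
        congr 1
    rw [h1]
    ring
  have e4 : bval T b (n + 1) = ∑ d ∈ Finset.Icc (1 : ℕ) 55, b.r (56 - d) * Nd T (n + 1) d
      + b.R * (gr T (n + 1)).R + b.E * (gr T (n + 1)).E := rfl
  have e5 : bval T (badj T b) n = ∑ d ∈ Finset.Icc (1 : ℕ) 55, (badj T b).r (56 - d) * Nd T n d
      + c * (gr T n).R + (b.E + (b.r 55 - c) / 56) * (gr T n).E := rfl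
  have e6 : ∑ d ∈ Finset.Icc (1 : ℕ) 55, (badj T b).r (56 - d) * Nd T n d
      + ∑ d ∈ Finset.Icc (1 : ℕ) 55, pd T n d * (b.r (56 - d) - (badj T b).r (56 - d))
      = ∑ d ∈ Finset.Icc (1 : ℕ) 55, (badj T b).r (56 - d) * (Nd T n d - pd T n d)
        + ∑ d ∈ Finset.Icc (1 : ℕ) 55, b.r (56 - d) * pd T n d := by
    rw [← Finset.sum_add_distrib, ← Finset.sum_add_distrib]
    refine Finset.sum_congr rfl fun d _ => ?_
    ring
  have e7 : b.R * (gr T (n + 1)).R + b.E * (gr T (n + 1)).E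
      = c * (gr T (n + 1)).R + b.E * (gr T n).E := by
    rw [c2, hc]
    field_simp
    ring
  have c1' : (gr T (n + 1)).R = (gr T n).R - (Bn T n - (gr T n).Q 55) := c1
  rw [e4, add_assoc, e7, e1, e2, e5, c1']
  have e8 : (fun d => b.r (56 - d)) 1 = b.r 55 := rfl
  rw [s1, s2] at e3
  linarith [e6, e3]

/-- WLIN -/
theorem wlin (hS : SortStmt) (hB : BarStmt) (hC : CstepStmt) (hP : PdStmt) : WlinStmt := by
  intro T n hT hV
  have hVn := hV n le_rfl
  obtain ⟨c1, c2, c3⟩ := hC T n hVn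
  obtain ⟨_, _, _, _, p5⟩ := hP T n hV
  have s1 := sum_gd hS T n hVn
  have s2 := sum_w_gd hS hB T n hVn
  set M := max (Bn T n - (gr T n).Q 0) 0 with hM
  have e1 : ∑ d ∈ Finset.Icc (1 : ℕ) 55, (56 - (d : ℝ)) * Nd T (n + 1) d
      = ∑ d ∈ Finset.Icc (1 : ℕ) 55, (56 - (d : ℝ)) *
          (if d = 1 then M else (Nd T n (d - 1) - pd T n (d - 1)))
        + ∑ d ∈ Finset.Icc (1 : ℕ) 55, (56 - (d : ℝ)) * pd T n d := by
    rw [← Finset.sum_add_distrib]
    refine Finset.sum_congr rfl fun d hd => ?_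
    rw [Finset.mem_Icc] at hd
    rw [p5 d hd.1 hd.2]
    ring
  have e2 := shift (fun d => 56 - (d : ℝ)) (fun d => Nd T n d - pd T n d) M
  have e3 : ∑ d ∈ Finset.Icc (1 : ℕ) 55, (if d = 55 then 0 else 56 - ((d + 1 : ℕ) : ℝ)) *
          (Nd T n d - pd T n d)
      = ∑ d ∈ Finset.Icc (1 : ℕ) 55, (56 - (d : ℝ)) * (Nd T n d - pd T n d)
        - ∑ d ∈ Finset.Icc (1 : ℕ) 55, (Nd T n d - pd T n d) := by
    rw [← Finset.sum_sub_distrib]
    refine Finset.sum_congr rfl fun d _ => ?_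
    by_cases h : d = 55
    · subst h
      rw [if_pos rfl]
      push_cast
      ring
    · rw [if_neg h]
      push_cast
      ring
  have e4 : 56 * Wn T (n + 1) = cst T (n + 1) - cst T n := by
    unfold Wn
    rw [Nat.add_sub_cancel]
    ring
  have c3' : cst T (n + 1) - cst T n = (Bn T n - (gr T n).Q 55) - (gr T (n + 1)).R / T := c3
  rw [e4, c3', e1, e2, e3, s1, s2, c2]
  push_cast
  ring

end SA.H53
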